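import Pool.Agent.X156.ZG.Prm

/-!
# Zagier's conjecture for abelian fields: non-vanishing of character sums, one character in each class

The groups `ℤ[P¹_F]`, the maps `δ_n`, the relations `R_n(F)`, the function `𝓛_n` and its linear extension are defined as in
the problem (`Pool.Agent.X156.ZG.Def`, `Pool.Agent.X156.ZG.Pol`). `kerDelta n F` is the kernel of `δ_n` in `ℤ[P¹_F]`;
`reg n y σ = 𝓛̃_n(σ(y))`; `zmap g y = g(y)`.

`Zagier n F`  (Q1 for `n` and `F`): there are `y_i ∈ ker δ_n` with `ζ_F(n) / (π^{n d_{n-1}} d_F^{-1/2} det(𝓛̃_n(σ_j(y_i)))) ∈ ℚ^*`.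

KNOWN theorem used as a hypothesis (`BorelDeJeu n F`; Borel; Beilinson–Deligne, de Jeu, both listed in the problem): there
is a `ℚ`-subspace of `ℝ^{d_n}`, spanned by an `ℝ`-basis `v_1, …, v_{d_n}`, with
`ζ_F(n) / (π^{n d_{n-1}} d_F^{-1/2} det(v_1, …, v_{d_n})) ∈ ℚ^*`, which contains the vectors `(𝓛̃_n(σ_j(y)))_j`.

Let `F` be an abelian extension of `ℚ` with group `G`, `σ₀` an embedding of `F`, `c ∈ G` the complex conjugation
(`conj ∘ σ₀ = σ₀ ∘ c`). For `y ∈ ker δ_n` and a character `χ : G → ℂ^*` put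

`Σ(y, χ) = ∑_{g ∈ G} χ(g) 𝓛̃_n(σ₀(g(y)))`.

Results, for `n ≥ 4`:

1. Q1 holds for `n` and `F` if and only if for every character `χ` of `G` with `χ(c) = (-1)^{n-1}` there is `y ∈ ker δ_n`
   with `Σ(y, χ) ≠ 0`.
2. If `a` is prime to the order of `G`, then `Σ(y, χ) = 0` implies `Σ(y, χ^a) = 0`, for every `y ∈ ker δ_n`. So in 1 it
   is enough to consider one character in every class of conjugate characters (characters with the same kernel).
3. If `n` is odd and `F` is real of PRIME degree, then Q1 holds for `n` and `F` if and only if there is an element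
   `y ∈ ker δ_n` such that the numbers `𝓛̃_n(σ(y))`, `σ : F → ℂ`, are not all equal. So ONE element with two different
   conjugate regulators gives the whole conjecture for `n` and `F`.

Proof: under `BorelDeJeu`, Q1 says that the regulators span the space of the functions of parity `(-1)^{n-1}` on the
embeddings; Fourier inversion on `G`; the coordinates of `(𝓛̃_n(σ_j(g(y))))_j` in the basis `v` are rational, and a
`ℚ`-linear relation between the values of `χ` holds for the conjugate characters; in 3 the trivial character is treated by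
`y = {1}`, for which `𝓛̃_n = ζ(n)`.
-/

set_option autoImplicit false

open NumberField

namespace Pool.Agent.Results.MP_f01982_nt.CharacterNonvanishing

open Pool.Agent.X156.ZG

/-- `Σ(y, χ) = ∑_g χ(g) 𝓛̃_n(σ₀(g(y)))`. -/
noncomputable def charSum (n : ℕ) {F : Type} [Field F] [NumberField F] (σ₀ : F →+* ℂ) (y : ZP F)
    (χ : Gal(F/ℚ) →* ℂˣ) : ℂ :=
  ∑ g : Gal(F/ℚ), (χ g : ℂ) * reg n (zmap (g : F →+* F) y) σ₀

/-- `c` is the complex conjugation for the embedding `σ₀`. -/
def IsConjugation {F : Type} [Field F] [NumberField F] (σ₀ : F →+* ℂ) (c : Gal(F/ℚ)) : Prop :=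
  ComplexEmbedding.conjugate σ₀ = σ₀.comp (c : F →+* F)

/-- **Zagier's conjecture for abelian fields and character sums.** -/
theorem result (n : ℕ) (hn : 4 ≤ n) (F : Type) [Field F] [NumberField F] [IsAbelianGalois ℚ F]
    -- the known theorem of Borel, Beilinson–Deligne and de Jeu
    (hB : BorelDeJeu n F) (σ₀ : F →+* ℂ) :
    -- 1. the criterion
    (∃ c : Gal(F/ℚ), IsConjugation σ₀ c ∧ (Zagier n F ↔ ∀ χ : Gal(F/ℚ) →* ℂˣ, (χ c : ℂ) = (-1) ^ (n - 1) →
      ∃ y ∈ kerDelta n F, charSum n σ₀ y χ ≠ 0)) ∧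
    -- 2. conjugate characters
    (∀ y ∈ kerDelta n F, ∀ (χ : Gal(F/ℚ) →* ℂˣ) (a : ℕ), a.Coprime (Nat.card Gal(F/ℚ)) →
      charSum n σ₀ y χ = 0 → charSum n σ₀ y (χ ^ a) = 0) ∧
    -- 3. fields of prime degree
    (Odd n → ComplexEmbedding.IsReal σ₀ → (Nat.card Gal(F/ℚ)).Prime →
      (Zagier n F ↔ ∃ y ∈ kerDelta n F, ∃ σ σ' : F →+* ℂ, reg n y σ ≠ reg n y σ')) := by
  classical
  have hn1 : 1 ≤ n := by omega
  let : CommGroup Gal(F/ℚ) := { (inferInstance : Group Gal(F/ℚ)) with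
    mul_comm := fun a b => (IsMulCommutative.is_comm (M := Gal(F/ℚ))).comm a b }
  have hsur : ∀ τ σ : F →+* ℂ, ∃ a : Gal(F/ℚ), τ.comp (act F a) = σ := by
    intro τ σ
    obtain ⟨s, hs⟩ := ComplexEmbedding.exists_comp_symm_eq_of_comp_eq (k := ℚ) τ σ (Subsingleton.elim _ _)
    exact ⟨s.symm, hs⟩
  have hinj : ∀ (τ : F →+* ℂ) (a b : Gal(F/ℚ)), τ.comp (act F a) = τ.comp (act F b) → a = b := by
    intro τ a b h
    ext x
    have := RingHom.congr_fun h x
    exact τ.injective this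
  have hR : ∀ (y : ZP F) (χ : Gal(F/ℚ) →* ℂˣ), charSum n σ₀ y χ = R n σ₀ y χ := fun y χ => rfl
  refine ⟨?_, ?_, ?_⟩
  · obtain ⟨c, hc⟩ := hsur σ₀ (ComplexEmbedding.conjugate σ₀)
    refine ⟨c, hc.symm, ?_⟩
    exact zagier_iff_characters hsur hn1 hB hinj hc.symm
  · intro y hy χ a ha h
    rw [hR] at h ⊢
    exact R_pow hsur hn1 hB hy σ₀ χ (by rwa [Nat.card_eq_fintype_card] at ha) h
  · intro hodd hreal hprime
    exact zagier_prime (by omega) hodd hB hsur hinj hreal hprime

end Pool.Agent.Results.MP_f01982_nt.CharacterNonvanishing
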