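import Pool.Agent.X156.ZG.Red

/-!
# Zagier's conjecture: reduction to fields with few automorphisms; cyclic extensions suffice for abelian ones

The groups `ℤ[P¹_F]`, the maps `δ_n`, the relations `R_n(F)` (generated by `{0}`, `{∞}` and the elements `α(0) - α(1)` for
`α ∈ ker δ_n ⊂ ℤ[P¹_{F(t)}]`), the function `𝓛_n` and its linear extension are defined as in the problem
(`Pool.Agent.X156.ZG.Def`, `Pool.Agent.X156.ZG.Pol`). `kerDelta n F` is the kernel of `δ_n` in `ℤ[P¹_F]`;
`reg n y σ = 𝓛̃_n(σ(y))`; the index set `J n F` of the embeddings `σ_1, …, σ_{d_n}` is the set of the infinite places of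
`F` (for `n` even: of the complex ones), and

`Zagier n F`  (Q1 for `n` and `F`): there are `y_i ∈ ker δ_n` with `ζ_F(n) / (π^{n d_{n-1}} d_F^{-1/2} det(𝓛̃_n(σ_j(y_i)))) ∈ ℚ^*`.

KNOWN theorem used as a hypothesis (`BorelDeJeu n K`, for all the number fields `K`; Borel; Beilinson–Deligne, de Jeu,
both listed in the problem): there is a `ℚ`-subspace `V` of `ℝ^{d_n}`, spanned by an `ℝ`-basis `v_1, …, v_{d_n}` (the image
of `K_{2n-1}(K) ⊗ ℚ`), with `ζ_K(n) / (π^{n d_{n-1}} d_K^{-1/2} det(v_1, …, v_{d_n})) ∈ ℚ^*`, which contains the vectors
`(𝓛̃_n(σ_j(y)))_j`, `y ∈ ker δ_n`.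

Results, for a fixed `n ≥ 4`:

1. Let `A` be a finite group of automorphisms of a number field `F`, `A ≠ 1`, not of prime order, such that all the
   elements `≠ 1` of `A` have prime order (for instance a non-cyclic group of order `p²` or `pq`). If Q1 holds for the
   fixed fields `F^P` of the subgroups `P` of prime order of `A`, then Q1 holds for `F`.
2. If Q1 holds for all the number fields `K` such that EVERY SUBGROUP OF `Aut(K)` OF ORDER `pq` (`p`, `q` primes, equal or
   not) IS CYCLIC, then Q1 holds for all number fields. (A number field of least degree for which Q1 fails has this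
   property. For a Galois extension `K` of `ℚ`: every Sylow subgroup of the Galois group is cyclic or a generalised
   quaternion group.)
3. Let `k` be a number field. If Q1 holds for all CYCLIC extensions of `k`, then Q1 holds for all ABELIAN extensions of
   `k`; for `k = ℚ`: Q1 for cyclic fields implies Q1 for abelian fields.

Proof: `ker δ_n` is functorial in `F`, so under `BorelDeJeu` Q1 for `F` says that the regulator vectors span the space
`W(F)` of the functions of parity `(-1)^{n-1}` on the embeddings; functions on the embeddings invariant under `P` come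
from `F^P`; and `∑_P N_P = N_A + (m - 1)` in `ℤ[A]`, the sum over the `m ≥ 2` subgroups of prime order of `A`.
-/

set_option autoImplicit false

open NumberField

namespace Pool.Agent.Results.MP_f01982_nt.CyclicImpliesAbelian

open Pool.Agent.X156.ZG

/-- Reduction 1: from the fixed fields of the subgroups of prime order of a finite group `A` of automorphisms (not of
prime order, all the elements `≠ 1` of prime order) to `F`. -/
def Step (n : ℕ) : Prop :=
  ∀ (F : Type) [Field F] [NumberField F] (A : Type) [Group A] [Finite A] [Nontrivial A]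
    [MulSemiringAction A F] [FaithfulSMul A F], ¬(Nat.card A).Prime → (∀ a : A, a ≠ 1 → (orderOf a).Prime) →
    (∀ P : Subgroup A, (Nat.card P).Prime → Zagier n (FixedPoints.subfield P F)) → Zagier n F

/-- Every subgroup of order `pq` of `Aut(K)` is cyclic (`p`, `q` primes, equal or not). -/
def CyclicPQ (K : Type) [Field K] : Prop :=
  ∀ A : Subgroup (K ≃+* K), ∀ p q : ℕ, p.Prime → q.Prime → Nat.card A = p * q → IsCyclic A

/-- Reduction 2: from the fields with `CyclicPQ` to all number fields. -/
def AllFields (n : ℕ) : Prop :=
  (∀ (K : Type) [Field K] [NumberField K], CyclicPQ K → Zagier n K) →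
    ∀ (F : Type) [Field F] [NumberField F], Zagier n F

/-- Reduction 3: from the cyclic extensions of `k` to the abelian extensions of `k`. -/
def AbelianFields (n : ℕ) (k : Type) [Field k] [NumberField k] : Prop :=
  (∀ (K : Type) [Field K] [NumberField K] [Algebra k K] [IsGalois k K], IsCyclic Gal(K/k) → Zagier n K) →
    ∀ (F : Type) [Field F] [NumberField F] [Algebra k F] [IsAbelianGalois k F], Zagier n F

/-- **Reductions of Zagier's conjecture.** -/
theorem result (n : ℕ) (hn : 4 ≤ n)
    -- the known theorem of Borel, Beilinson–Deligne and de Jeu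
    (hB : ∀ (K : Type) [Field K] [NumberField K], BorelDeJeu n K) :
    Step n ∧ AllFields n ∧ ∀ (k : Type) [Field k] [NumberField k], AbelianFields n k := by
  have hn1 : 1 ≤ n := by omega
  refine ⟨?_, ?_, ?_⟩
  · intro F _ _ A _ _ _ _ _ hA1 hA2 h
    have := Fintype.ofFinite A
    exact zagier_reduction hn1 hA1 hA2 hB h
  · intro h F _ _
    exact zagier_all hn1 hB h F
  · intro k _ _ h F _ _ _ _
    exact zagier_abelian hn1 hB k h F

end Pool.Agent.Results.MP_f01982_nt.CyclicImpliesAbelian
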