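import Pool.Agent.X156.ZG.Gen

/-!
# Zagier's conjecture for Galois extensions of `ℚ`: the conjugates of one element suffice

The groups `ℤ[P¹_F]`, the maps `δ_n`, the relations `R_n(F)`, the function `𝓛_n` and its linear extension are defined as in
the problem (`Pool.Agent.X156.ZG.Def`, `Pool.Agent.X156.ZG.Pol`). `kerDelta n F` is the kernel of `δ_n` in `ℤ[P¹_F]`;
`reg n y σ = 𝓛̃_n(σ(y))`; the index set `J n F` of the embeddings `σ_1, …, σ_{d_n}` is the set of the infinite places of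
`F` (for `n` even: of the complex ones), and `zmap g y = g(y)`.

`Zagier n F`  (Q1 for `n` and `F`): there are `y_i ∈ ker δ_n` with `ζ_F(n) / (π^{n d_{n-1}} d_F^{-1/2} det(𝓛̃_n(σ_j(y_i)))) ∈ ℚ^*`.

KNOWN theorem used as a hypothesis (`BorelDeJeu n F`; Borel; Beilinson–Deligne, de Jeu, both listed in the problem): there
is a `ℚ`-subspace of `ℝ^{d_n}`, spanned by an `ℝ`-basis `v_1, …, v_{d_n}`, with
`ζ_F(n) / (π^{n d_{n-1}} d_F^{-1/2} det(v_1, …, v_{d_n})) ∈ ℚ^*`, which contains the vectors `(𝓛̃_n(σ_j(y)))_j`.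

Result. Let `F` be a Galois extension of `ℚ`, `σ₀` an embedding of `F`, and `g_w`, for the places `w` of `J n F`, any
automorphisms of `F` with `w ∘ g_w = σ₀` (they exist). Then the following are equivalent:

(a) Q1 for `n` and `F`: some `d_n` elements `y_w ∈ ker δ_n` satisfy the formula;
(b) for ONE element `y ∈ ker δ_n` its `d_n` conjugates `g_w(y)` satisfy the formula:
    `ζ_F(n) / (π^{n d_{n-1}} d_F^{-1/2} det(𝓛̃_n(σ_j(g_w(y))))) ∈ ℚ^*`;
(c) `det(𝓛̃_n(σ_j(g_w(y)))) ≠ 0` for some `y ∈ ker δ_n`.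

The determinant in (b) is built from the numbers `𝓛̃_n(σ₀(g(y)))`, `g ∈ Gal(F/ℚ)`, of the orbit of one element only.

Proof: under `BorelDeJeu`, (a) says that the regulators span the space of the functions of parity `(-1)^{n-1}` on the
embeddings; the function supported on `σ₀` and its conjugate is then a real combination `∑ c_j reg(y_j)`, and the
determinant in (c) for `∑ x_j y_j` is a polynomial in `x` with the value `1` at `c`, so it is `≠ 0` at some integer point.
-/

set_option autoImplicit false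

open NumberField

namespace Pool.Agent.Results.MP_f01982_nt.OneElement

open Pool.Agent.X156.ZG

open Classical in
/-- The determinant `det(𝓛̃_n(σ_j(g_w(y))))` of the conjugates of `y`. -/
noncomputable def orbitDet (n : ℕ) (F : Type) [Field F] [NumberField F] (g : J n F → (F ≃+* F)) (y : ZP F) : ℝ :=
  (Matrix.of fun i w : J n F => reg n (zmap (g i : F →+* F) y) w.1.embedding).det

/-- **One element suffices.** -/
theorem result (n : ℕ) (hn : 4 ≤ n) (F : Type) [Field F] [NumberField F] [IsGalois ℚ F]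
    -- the known theorem of Borel, Beilinson–Deligne and de Jeu
    (hB : BorelDeJeu n F) (σ₀ : F →+* ℂ) :
    (∃ g : J n F → (F ≃+* F), Adapted n F σ₀ g) ∧
    ∀ g : J n F → (F ≃+* F), Adapted n F σ₀ g →
      (Zagier n F ↔ ∃ y ∈ kerDelta n F, ∃ q : ℚ, q ≠ 0 ∧
        dedekindZeta F n = ((q * (fac n F * orbitDet n F g y) : ℝ) : ℂ)) ∧
      (Zagier n F ↔ ∃ y ∈ kerDelta n F, orbitDet n F g y ≠ 0) := by
  classical
  have hn1 : 1 ≤ n := by omega
  refine ⟨exists_adapted n σ₀, fun g hg => ?_⟩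
  have h1 : Zagier n F → ∃ y ∈ kerDelta n F, orbitDet n F g y ≠ 0 := fun h => one_element hn1 hB hg h
  have h2 : (∃ y ∈ kerDelta n F, orbitDet n F g y ≠ 0) → ∃ y ∈ kerDelta n F, ∃ q : ℚ, q ≠ 0 ∧
      dedekindZeta F n = ((q * (fac n F * orbitDet n F g y) : ℝ) : ℂ) := by
    rintro ⟨y, hy, hd⟩
    exact ⟨y, hy, rat_of_det hB (fun i => zmap (g i : F →+* F) y)
      (fun i => kerDelta_map n (g i : F →+* F) hy) hd⟩
  have h3 : (∃ y ∈ kerDelta n F, ∃ q : ℚ, q ≠ 0 ∧
      dedekindZeta F n = ((q * (fac n F * orbitDet n F g y) : ℝ) : ℂ)) → Zagier n F := by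
    rintro ⟨y, hy, q, hq, e⟩
    exact ⟨fun i => zmap (g i : F →+* F) y, fun i => kerDelta_map n (g i : F →+* F) hy, q, hq, e⟩
  exact ⟨⟨fun h => h2 (h1 h), h3⟩, ⟨h1, fun h => h3 (h2 h)⟩⟩

end Pool.Agent.Results.MP_f01982_nt.OneElement
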