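import Pool.Agent.X242.UW7
import Pool.Agent.X242.DR12
import Pool.Agent.X298.ST.Main

/-!
# Zagier's conjecture and one universal rational combination of ideal counts

Let `F` be a number field, `n ≥ 2`, `𝔪 ≠ (0), (1)` an ideal (for instance `(2)`), `r_m` the number of the ideals of norm `m`
prime to `𝔪` and `Z(s) = ∑ r_m m^{-s} = ζ_F(s) ∏_{v ∣ 𝔪} (1 - Nv^{-s})`. At `1 - n` the order of `Z` is `d = d_n`, with the
leading coefficient `θ = ζ_F^*(1 - n) ∏ (1 - Nv^{n-1})`, and by the functional equation `θ` is a nonzero rational multiple of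
`π^{-n d_{n-1} - (n-1) d_n} d_F^{1/2} ζ_F(n)`. So the formula of Zagier's conjecture holds for given `y_i`, up to a nonzero
rational factor, if and only if `P = π^{-(n-1) d_n} det |L_n(σ_j(y_i))|` is a nonzero rational multiple of `θ`.

Fix `γ > π/2` with `C_d(γ) = (-1)^d (d/dt)^d (e^{iγt} / Γ(1 + t)) (0) ≠ 0` and rational numbers `ρ_N(m)`, for every `N` almost
all of them zero, with `|ρ_N(m) - Re (N^d e^{iγ log m / N} / (C_d(γ) Γ(1 + log m / N)))| ≤ 1 / (N m²)`. They exist and depend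
only on `d`. Put `x_N = n^{-d} ∑_m ρ_N(m^n) m^{n-1} r_m`, a finite rational combination of the numbers `r_m`.

1. `Z` continues (unconditionally), and `x_N = θ + O(1/N)`.
2. A real number `P ≠ 0` is a nonzero rational multiple of `θ` if and only if for some `M ≥ 1` the numbers `M x_N / P`
   come arbitrarily close to nonzero integers for arbitrarily large `N`.
3. So for a set `Y` (of the systems `y = (y_i)`) and a map `P : Y → ℝ`: some `P(y) ≠ 0` is a nonzero rational multiple of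
   `θ` if and only if for some `y` one has `P(y) ≠ 0` and the property of 2.
-/

set_option autoImplicit false

open Filter Topology Asymptotics
open IsDedekindDomain NumberField

namespace Pool.Agent.Results.MP_f01982_nt.RationalApproximations

open Pool.Agent.X298.ST Pool.Agent.X242.DR

section

variable {K : Type} [Field K] [NumberField K]

/-- `c` is multiplicative on the ideals prime to `𝔪` and trivial on the principal ideals of totally positive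
`x ≡ 1` modulo `𝔪`. -/
structure IsClassMap {G : Type} [Group G] (𝔪 : Ideal (𝓞 K)) (c : Ideal (𝓞 K) → G) : Prop where
  mul : ∀ I J : Ideal (𝓞 K), IsCoprime I 𝔪 → IsCoprime J 𝔪 → c (I * J) = c I * c J
  ray : ∀ x : 𝓞 K, x ≠ 0 → x - 1 ∈ 𝔪 → (∀ σ : K →+* ℝ, 0 < σ (x : K)) → c (Ideal.span {x}) = 1

/-- `N𝔞^{-s}` -/
noncomputable def npow (𝔞 : Ideal (𝓞 K)) (s : ℂ) : ℂ := ((Ideal.absNorm 𝔞 : ℕ) : ℂ) ^ (-s)

/-- `Λ` is `L(s, f)`: the sum over the ideals prime to `𝔪` for `Re s > 1`, continued to a function which is analytic outside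
of `1` and meromorphic at `1`. -/
structure IsL {G : Type} (𝔪 : Ideal (𝓞 K)) (c : Ideal (𝓞 K) → G) (f : G → ℂ) (Λ : ℂ → ℂ) : Prop where
  series : ∀ s : ℂ, 1 < s.re → HasSum (fun 𝔞 : {𝔞 : Ideal (𝓞 K) // IsCoprime 𝔞 𝔪} =>
    f (c 𝔞.1) * npow 𝔞.1 s) (Λ s)
  analytic : ∀ s : ℂ, s ≠ 1 → AnalyticAt ℂ Λ s
  mero : MeromorphicAt Λ 1

open Classical in
/-- `b_n(f)` -/
noncomputable def coeff {G E : Type} [Field E] (𝔪 : Ideal (𝓞 K)) (c : Ideal (𝓞 K) → G) (f : G → E)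
    (n : ℕ) : E :=
  byNorm (fun 𝔞 : Ideal (𝓞 K) => if IsCoprime 𝔞 𝔪 then f (c 𝔞) else 0) n

/-- `x_N(f) = k^{-d} ∑_n ρ_N(n^k) n^{k-1} b_n(f)`, for `ρ = ρ_N` -/
noncomputable def approx {G E : Type} [Field E] (𝔪 : Ideal (𝓞 K)) (c : Ideal (𝓞 K) → G) (k d : ℕ)
    (ρ : ℕ →₀ ℚ) (f : G → E) : E :=
  comb ρ (powCoef k fun n : ℕ => (n : E) ^ (k - 1) * coeff 𝔪 c f n) / (k : E) ^ d

/-- `θ` is the leading coefficient of `Λ` at `1 - k` if the order is `d`: `Λ(s) = θ (s - 1 + k)^d + ⋯`. -/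
def HasLead (k d : ℕ) (Λ : ℂ → ℂ) (θ : ℂ) : Prop :=
  Tendsto (fun s : ℂ => Λ (s + (1 - k)) / s ^ d) (𝓝[≠] 0) (𝓝 θ)

theorem coeff_map {G E E' : Type} [Field E] [Field E'] (σ : E →+* E') (𝔪 : Ideal (𝓞 K))
    (c : Ideal (𝓞 K) → G) (f : G → E) (n : ℕ) :
    coeff 𝔪 c (fun g => σ (f g)) n = σ (coeff 𝔪 c f n) := by
  classical
  unfold coeff
  have e := byNorm_map (K := K) σ.toAddMonoidHom
    (fun 𝔞 : Ideal (𝓞 K) => if IsCoprime 𝔞 𝔪 then f (c 𝔞) else 0) n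
  have e2 : (fun 𝔞 : Ideal (𝓞 K) => σ.toAddMonoidHom (if IsCoprime 𝔞 𝔪 then f (c 𝔞) else 0)) =
      fun 𝔞 : Ideal (𝓞 K) => if IsCoprime 𝔞 𝔪 then σ (f (c 𝔞)) else 0 := by
    funext 𝔞
    split_ifs
    · rfl
    · exact map_zero σ
  rw [e2] at e
  exact e

theorem approx_map {G E E' : Type} [Field E] [CharZero E] [Field E'] [CharZero E'] (σ : E →+* E')
    (𝔪 : Ideal (𝓞 K)) (c : Ideal (𝓞 K) → G) (k d : ℕ) (ρ : ℕ →₀ ℚ) (f : G → E) :
    approx 𝔪 c k d ρ (fun g => σ (f g)) = σ (approx 𝔪 c k d ρ f) := by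
  unfold approx
  rw [map_div₀, map_pow, map_natCast]
  congr 1
  have e : (powCoef k fun n : ℕ => (n : E') ^ (k - 1) * coeff 𝔪 c (fun g => σ (f g)) n) =
      fun m => σ (powCoef k (fun n : ℕ => (n : E) ^ (k - 1) * coeff 𝔪 c f n) m) := by
    funext m
    have e1 := powCoef_map σ.toAddMonoidHom k (fun n : ℕ => (n : E) ^ (k - 1) * coeff 𝔪 c f n) m
    have e2 : (fun n : ℕ => σ.toAddMonoidHom ((n : E) ^ (k - 1) * coeff 𝔪 c f n)) =
        fun n : ℕ => (n : E') ^ (k - 1) * coeff 𝔪 c (fun g => σ (f g)) n := by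
      funext n
      rw [coeff_map]
      show σ _ = _
      rw [map_mul, map_pow, map_natCast]
    rw [e2] at e1
    exact e1
  rw [e, comb_hom σ ρ]

theorem exists_isL {G : Type} [Group G] [Finite G] (hcomm : ∀ a b : G, a * b = b * a)
    {𝔪 : Ideal (𝓞 K)} (h0 : 𝔪 ≠ ⊥) (h1 : 𝔪 ≠ ⊤) {c : Ideal (𝓞 K) → G} (hc : IsClassMap 𝔪 c)
    (f : G → ℂ) : ∃ Λ : ℂ → ℂ, IsL 𝔪 c f Λ := by
  classical
  have iF : Fintype G := Fintype.ofFinite _
  obtain ⟨⟨ζ, hζ⟩, -⟩ := class_facts (K := K) (R := ∅) hcomm h1 h0 hc.mul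
    fun x hx0 hx1 hx2 => hc.ray x hx0 hx1 fun σ => hx2 σ (by simp)
  refine ⟨fun s => ∑ g, f g * ζ g s, fun s hs => ?_, fun s hs => ?_, ?_⟩
  · show HasSum (fun 𝔞 : {𝔞 : Ideal (𝓞 K) // IsCoprime 𝔞 𝔪} =>
      f (c 𝔞.1) * ((Ideal.absNorm 𝔞.1 : ℕ) : ℂ) ^ (-s)) (∑ g, f g * ζ g s)
    have h2 : ∀ g : G, HasSum (fun 𝔞 : {𝔞 : Ideal (𝓞 K) // IsCoprime 𝔞 𝔪} =>
        f g * (if c 𝔞.1 = g then ((Ideal.absNorm 𝔞.1 : ℕ) : ℂ) ^ (-s) else 0)) (f g * ζ g s) := by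
      intro g
      refine HasSum.mul_left _ ?_
      have h3 := hζ.series g s hs
      have h4 := (hasSum_subtype_iff_indicator (s := {𝔞 : Ideal (𝓞 K) | IsCoprime 𝔞 𝔪 ∧ c 𝔞 = g})
        (f := fun 𝔞 : Ideal (𝓞 K) => ((Ideal.absNorm 𝔞 : ℕ) : ℂ) ^ (-s))).1 h3
      refine (hasSum_subtype_iff_indicator (s := {𝔞 : Ideal (𝓞 K) | IsCoprime 𝔞 𝔪})
        (f := fun 𝔞 : Ideal (𝓞 K) => if c 𝔞 = g then ((Ideal.absNorm 𝔞 : ℕ) : ℂ) ^ (-s) else 0)).2 ?_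
      refine h4.congr_fun fun 𝔞 => ?_
      simp only [Set.indicator_apply, Set.mem_ofPred_eq]
      by_cases h5 : IsCoprime 𝔞 𝔪 <;> by_cases h6 : c 𝔞 = g <;> simp [h5, h6]
    have h3 := hasSum_sum fun g (_ : g ∈ Finset.univ) => h2 g
    refine h3.congr_fun fun 𝔞 => ?_
    rw [Finset.sum_eq_single (c 𝔞.1)]
    · rw [if_pos rfl]
    · intro g _ hg
      rw [if_neg (Ne.symm hg), mul_zero]
    · intro h
      exact absurd (Finset.mem_univ _) h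
  · exact Finset.analyticAt_fun_sum _ fun g _ => analyticAt_const.fun_mul (hζ.analytic g s hs)
  · have key : ∀ T : Finset G, MeromorphicAt (fun s : ℂ => ∑ g ∈ T, f g * ζ g s) 1 := by
      intro T
      induction T using Finset.induction_on with
      | empty => simp
      | insert q T hq ih =>
        simp only [Finset.sum_insert hq]
        exact ((MeromorphicAt.const _ _).fun_mul (hζ.mero q)).fun_add ih
    exact key Finset.univ

/-- **The law.** -/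
theorem law {G : Type} [Finite G] {𝔪 : Ideal (𝓞 K)} (h1 : 𝔪 ≠ ⊤) {c : Ideal (𝓞 K) → G} {f : G → ℂ}
    {Λ : ℂ → ℂ} (hΛ : IsL 𝔪 c f Λ) {k d : ℕ} (hk : 1 ≤ k) {θ : ℂ} (hθ : HasLead k d Λ θ) {γ : ℝ}
    (hγ : Real.pi / 2 < γ) (hC : Ck d γ ≠ 0) {ρ : ℕ → ℕ →₀ ℚ} (hρ : IsRational d γ ρ) :
    (fun N : ℕ => approx 𝔪 c k d (ρ N) f - θ) =O[atTop] (fun N : ℕ => 1 / (N : ℝ)) := by
  classical
  have iF : Fintype G := Fintype.ofFinite _
  have hk0 : (k : ℂ) ≠ 0 := by exact_mod_cast (by omega : k ≠ 0)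
  have hb : ∀ 𝔞 : Ideal (𝓞 K), ‖(if IsCoprime 𝔞 𝔪 then f (c 𝔞) else 0)‖ ≤ ∑ g, ‖f g‖ := by
    intro 𝔞
    split_ifs
    · exact Finset.single_le_sum (f := fun g => ‖f g‖) (fun _ _ => norm_nonneg _) (Finset.mem_univ _)
    · rw [norm_zero]
      exact Finset.sum_nonneg fun g _ => norm_nonneg _
  have hz : (if IsCoprime (⊥ : Ideal (𝓞 K)) 𝔪 then f (c ⊥) else 0) = 0 := by
    rw [if_neg]
    intro h2
    rw [← Ideal.zero_eq_bot, isCoprime_zero_left] at h2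
    exact h1 (Ideal.isUnit_iff.1 h2)
  have hmer : ∀ x : ℝ, x ≤ 1 → MeromorphicAt Λ (x : ℂ) := by
    intro x _
    by_cases hx : (x : ℂ) = 1
    · rw [hx]
      exact hΛ.mero
    · exact (hΛ.analytic _ hx).meromorphicAt
  have hS : IsSeries (coeff 𝔪 c f) Λ := by
    refine isSeries_ideals hb hz (fun x _ hx => hmer x hx) fun s hs => ?_
    have h2 := (hasSum_subtype_iff_indicator (s := {𝔞 : Ideal (𝓞 K) | IsCoprime 𝔞 𝔪})
      (f := fun 𝔞 : Ideal (𝓞 K) => f (c 𝔞) * ((Ideal.absNorm 𝔞 : ℕ) : ℂ) ^ (-s))).1 (hΛ.series s hs)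
    refine h2.congr_fun fun 𝔞 => ?_
    simp only [Set.indicator_apply, Set.mem_ofPred_eq]
    split_ifs
    · rfl
    · rw [zero_mul]
  have han : AnalyticAt ℂ Λ (1 - k) := by
    refine hΛ.analytic _ ?_
    intro h2
    exact hk0 (by linear_combination -h2)
  have h2 := shift_law hS (byNorm_zero hz) hk hmer han hθ hγ hC hρ
  have h3 := h2.const_mul_left (((k : ℂ) ^ d)⁻¹)
  refine h3.congr_left fun N => ?_
  unfold approx
  have hkd : (k : ℂ) ^ d ≠ 0 := pow_ne_zero _ hk0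
  field_simp

/-- `Z` is the continuation of `∑ N𝔞^{-s}`, over the ideals prime to `𝔪`. -/
def IsZeta (𝔪 : Ideal (𝓞 K)) (Z : ℂ → ℂ) : Prop := IsL 𝔪 (fun _ => ()) (fun _ : Unit => (1 : ℂ)) Z

/-- `x_N = n^{-d} ∑_m ρ_N(m^n) m^{n-1} r_m`, for `ρ = ρ_N` -/
noncomputable def rational (𝔪 : Ideal (𝓞 K)) (n d : ℕ) (ρ : ℕ →₀ ℚ) : ℚ :=
  approx 𝔪 (fun _ => ()) n d ρ (fun _ : Unit => (1 : ℚ))

/-- For some `M ≥ 1` the numbers `M x_N / P` come arbitrarily close to nonzero integers for arbitrarily large `N`. -/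
def NearIntegers (x : ℕ → ℚ) (P : ℝ) : Prop :=
  ∃ M : ℕ, 1 ≤ M ∧ ∀ ε : ℝ, 0 < ε → ∀ N₀ : ℕ, ∃ N ≥ N₀, ∃ z : ℤ, z ≠ 0 ∧ |M * (x N : ℝ) / P - z| < ε

end

/-- **Zagier's conjecture and one universal rational combination of ideal counts.** -/
theorem result :
    -- 0. the weights exist
    ((∀ d : ℕ, {γ : ℝ | Ck d γ = 0}.Finite) ∧ ∀ (d : ℕ) (γ : ℝ), ∃ ρ, IsRational d γ ρ) ∧
    ∀ (d : ℕ) (γ : ℝ), Real.pi / 2 < γ → Ck d γ ≠ 0 → ∀ ρ : ℕ → ℕ →₀ ℚ, IsRational d γ ρ →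
    ∀ n : ℕ, 1 ≤ n → ∀ (K : Type) [Field K] [NumberField K] (𝔪 : Ideal (𝓞 K)), 𝔪 ≠ ⊥ → 𝔪 ≠ ⊤ →
    -- 1. continuation and leading coefficient
    (∃ Z : ℂ → ℂ, IsZeta 𝔪 Z) ∧
    ∀ (Z : ℂ → ℂ) (θ : ℝ), IsZeta 𝔪 Z → HasLead n d Z (θ : ℂ) →
      (fun N : ℕ => (rational 𝔪 n d (ρ N) : ℝ) - θ) =O[atTop] (fun N : ℕ => 1 / (N : ℝ)) ∧
    -- 2. rational multiples
    (∀ P : ℝ, P ≠ 0 → ((∃ q : ℚ, q ≠ 0 ∧ P = q * θ) ↔ NearIntegers (fun N => rational 𝔪 n d (ρ N)) P)) ∧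
    -- 3. families
    ∀ (Y : Type) (P : Y → ℝ), (∃ y, P y ≠ 0 ∧ ∃ q : ℚ, q ≠ 0 ∧ P y = q * θ) ↔
      ∃ y, P y ≠ 0 ∧ NearIntegers (fun N => rational 𝔪 n d (ρ N)) (P y) := by
  refine ⟨⟨rot_finite, exists_rational⟩, ?_⟩
  intro d γ hγ hC ρ hρ n hn K _ _ 𝔪 h0 h1
  refine ⟨exists_isL (G := Unit) (fun _ _ => rfl) h0 h1 ⟨fun _ _ _ _ => rfl, fun _ _ _ _ => rfl⟩ _, ?_⟩
  intro Z θ hZ hθ
  have h2 := law (G := Unit) h1 hZ hn hθ hγ hC hρ
  have h3 : (fun N : ℕ => (rational 𝔪 n d (ρ N) : ℝ) - θ) =O[atTop] (fun N : ℕ => 1 / (N : ℝ)) := by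
    obtain ⟨B, hB⟩ := h2.bound
    refine IsBigO.of_bound B ?_
    filter_upwards [hB] with N hN
    have e1 := approx_map (Rat.castHom ℂ) 𝔪 (fun _ => ()) n d (ρ N) (fun _ : Unit => (1 : ℚ))
    have e2 : approx 𝔪 (fun _ => ()) n d (ρ N) (fun _ : Unit => (1 : ℂ)) =
        ((rational 𝔪 n d (ρ N) : ℝ) : ℂ) := by
      have e3 : (fun g : Unit => (Rat.castHom ℂ) ((fun _ : Unit => (1 : ℚ)) g)) = fun _ : Unit => (1 : ℂ) := by
        funext g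
        simp
      rw [e3] at e1
      rw [e1]
      simp [rational]
    rw [e2] at hN
    rw [← Complex.norm_real]
    push_cast
    push_cast at hN
    exact hN
  have hlim : Tendsto (fun N : ℕ => (rational 𝔪 n d (ρ N) : ℝ)) atTop (𝓝 (((1 : ℕ) : ℝ) * θ)) := by
    have h4 := h3.trans_tendsto tendsto_one_div_atTop_nhds_zero_nat
    have h5 := h4.add_const θ
    rw [zero_add] at h5
    rw [Nat.cast_one, one_mul]
    exact h5.congr fun N => by ring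
  have h4 : ∀ P : ℝ, P ≠ 0 → ((∃ q : ℚ, q ≠ 0 ∧ P = q * θ) ↔
      NearIntegers (fun N => rational 𝔪 n d (ρ N)) P) := fun P hP => ratio_iff le_rfl hlim hP
  exact ⟨h3, h4, fun Y P => exists_congr fun y => and_congr_right fun hy => h4 _ hy⟩

end Pool.Agent.Results.MP_f01982_nt.RationalApproximations
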